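import Mathlib
import Pool.Agent.H.MP_b12348_gt.Main
set_option autoImplicit false
namespace Pool.Agent.Results.MP_b12348_gt.Counter
open Set

def Omega {E : Type} [AddCommGroup E] [Module ℝ E] (C : Set E) : Set (C → ℝ) :=
  {w | (∀ a, w a ∈ Icc (0 : ℝ) 1) ∧ ∀ (a b c : C), ∀ t ∈ Icc (0 : ℝ) 1,
    (c : E) = t • (a : E) + (1 - t) • (b : E) → w c = t * w a + (1 - t) * w b}

def POA {E F : Type} [AddCommGroup E] [Module ℝ E] [AddCommGroup F] [Module ℝ F]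
    (X : Set E) (Y : Set F) (D : Set E) (h : E → F) : Prop :=
  D ⊆ X ∧ (∀ a ∈ D, ∀ b ∈ D, ∀ t ∈ Icc (0 : ℝ) 1, t • a + (1 - t) • b ∈ D ∧
    h (t • a + (1 - t) • b) = t • h a + (1 - t) • h b) ∧ h '' D = Y

theorem result : ∃ C : Set (Fin 4 → ℝ),
    (∃ S : Set (Fin 4 → ℝ), S.Finite ∧ C = convexHull ℝ S) ∧
    (¬∃ S : Set (Fin 4 → ℝ), S.Finite ∧ AffineIndependent ℝ ((↑) : S → Fin 4 → ℝ) ∧
      C = convexHull ℝ S) ∧
    (C.extremePoints ℝ).ncard = 12 ∧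
    ∃ (A : Set (Fin 4 ⊕ Fin 4 → ℝ)) (f : (Fin 4 ⊕ Fin 4 → ℝ) → Fin 4 → ℝ)
      (B : Set (stdSimplex ℝ (Fin 4 ⊕ Fin 4) → ℝ))
      (g : (stdSimplex ℝ (Fin 4 ⊕ Fin 4) → ℝ) → C → ℝ),
      POA (stdSimplex ℝ (Fin 4 ⊕ Fin 4)) C A f ∧
      POA (Omega (stdSimplex ℝ (Fin 4 ⊕ Fin 4))) (Omega C) B g ∧
      (∀ a ∈ A, ∀ w ∈ B, ∀ h₁ h₂, g w ⟨f a, h₁⟩ = w ⟨a, h₂⟩) ∧
      ¬∃ (A' : Set (Fin 4 ⊕ Fin 4 → ℝ)) (f' : (Fin 4 ⊕ Fin 4 → ℝ) → Fin 12 → ℝ),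
        POA (stdSimplex ℝ (Fin 4 ⊕ Fin 4)) (stdSimplex ℝ (Fin 12)) A' f' := by
  obtain ⟨C, h1, h2, h3, -, A, f, B, g, h4, h5, h6⟩ := H.MP_b12348_gt.main 4 le_rfl
  refine ⟨C, h1, h2, h3, A, f, B, g, h4, h5, h6, fun ⟨D, k, _, h7, h8⟩ => ?_⟩
  choose a h9 h10 using fun j => h8.ge (single_mem_stdSimplex ℝ j)
  obtain ⟨I, y, h11, h12⟩ := Convex.radon_partition (𝕜 := ℝ) (f := a) fun h => by
    have := h.card_le_finrank_succ.trans (Nat.succ_le_succ (Submodule.finrank_le _))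
    simp at this
  classical
  have h13 (c : ℝ) : Convex ℝ {y ∈ D | ∑ i with i ∈ I, k y i = c} := by
    rintro x ⟨h13, h14⟩ y ⟨h15, h16⟩ s t h17 h18 h19
    obtain rfl : t = 1 - s := by linarith
    obtain ⟨h20, h21⟩ := h7 x h13 y h15 s ⟨h17, by linarith⟩
    refine ⟨h20, ?_⟩
    simp only [h21, Pi.add_apply, Pi.smul_apply, smul_eq_mul, Finset.sum_add_distrib,
      ← Finset.mul_sum, h14, h16]
    ring
  have h14 := (convexHull_min (by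
    rintro _ ⟨j, h, rfl⟩
    exact ⟨h9 j, by simp [h10, Pi.single_apply, h]⟩) (h13 1) h11).2
  have h15 := (convexHull_min (by
    rintro _ ⟨j, h, rfl⟩
    exact ⟨h9 j, by simp [h10, Pi.single_apply, show j ∉ I from h]⟩) (h13 0) h12).2
  exact one_ne_zero (h14.symm.trans h15)

end Pool.Agent.Results.MP_b12348_gt.Counter
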